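import Pool.Agent.Y163.MW.Asm
import Pool.Agent.H66PM.Cnt

/-!
# MP_6451f1_ag: an effective zero-one law for the `p`-adic monodromy-weight conjecture

Let `K` be a `p`-adic field with residue field with `q` elements, `X` a smooth proper variety over
`K`, `D = ∑ dim H^m(X)`. If the conjecture fails for `X` in some degree, then for all `N ≥ 1` the
proportion of the eigenvalues of Frobenius on the graded pieces of the monodromy filtration of the
cohomology of `X^N` which have the expected weight is at most `√(2 D / (N + 1))`.

Idea of the proof. A basis of `H(X)` which consists of homogeneous strings of `N` has two gradings: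
the centred weights `wt` and the degrees `ct` for the monodromy filtration. By the Künneth formula
the eigenvalues on `X^N` correspond to `N`-tuples of basis vectors, and the expected weight is the
right one if and only if the sum of the integers `δ = wt - ct` is zero. The conjecture says that
`δ = 0`. The number of vanishing sums is bounded with the theorem of Littlewood-Offord and Erdős
(Sperner's theorem), after a symmetrization.
-/

set_option autoImplicit false

open Module

universe u v w

namespace Pool.Agent.Results.MP_6451f1_ag.EffectiveZeroOneLaw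

open Pool.Agent.H914 Pool.Agent.Y143 Pool.Agent.Y163.MW Pool.Agent.Y163.MW.Coh

/-- The conjecture for `X` in all degrees: for all `m` and `s` the eigenvalues of `F` on the graded
piece `M_s / M_(s - 1)` of the monodromy filtration of `H^m(X)` are `q`-Weil numbers of weight
`m + s`. -/
def Conjecture {K : Type u} [Field K] {Ω : Type w} [Field Ω] [CharZero Ω]
    (T : Theory.{u, v, w} K Ω) (q : ℕ) (X : SmVar.{u} K) : Prop :=
  ∀ m, (T.H X).MWPure q m

/-- The dimension of the whole cohomology of `X`. -/
noncomputable def dimH {K : Type u} [Field K] {Ω : Type w} [Field Ω] (T : Theory.{u, v, w} K Ω)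
    (X : SmVar.{u} K) : ℕ :=
  finrank Ω (T.H X).V

/-- **Effective zero-one law.** Let `T` be the `p`-adic cohomology `⨁ H^m_{pst,p}` of the smooth
proper varieties over `K` (with coefficients extended to the algebraically closed field `Ω`), `F` the
action of an element of the Weil group which induces the geometric Frobenius, `N` the monodromy
operator. Let `X` be a smooth proper variety, and let `M` be the monodromy filtration of the
cohomology of the power `X^(n + 1)`. If the conjecture holds for `X` then all eigenvalues of `F` on
the graded pieces of `M` have the expected weight. If the conjecture is false for `X` in some degree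
then at most `√(2 D / (n + 2))` of them do, where `D` is the dimension of the cohomology of `X`. -/
theorem result {K : Type u} [Field K] {Ω : Type w} [Field Ω] [CharZero Ω] [IsAlgClosed Ω]
    (T : Theory.{u, v, w} K Ω) {q : ℕ} (hq : 1 < q) (hT : T.IsLocal q) (X : SmVar.{u} K) (n : ℕ)
    (M : ℤ → Submodule Ω (T.H (pow X n)).V)
    (hM : IsMonodromyFiltrationOn ⊤ (T.H (pow X n)).N M) :
    (Conjecture T q X → (T.H (pow X n)).right q M = dimH T (pow X n)) ∧
      (¬ Conjecture T q X → ((T.H (pow X n)).right q M : ℝ) ≤
        √(2 * dimH T X / (n + 2)) * dimH T (pow X n)) := by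
  classical
  obtain ⟨S⟩ := exists_strings hq (hT.coh X)
  have H := adp_strings S
  have hd : ∀ g : Fin (n + 1) → S.P, ∑ k, S.wt (g k) - ∑ k, S.ct (g k) =
      ∑ k, (S.wt (g k) - S.ct (g k)) := fun g => (Finset.sum_sub_distrib _ _).symm
  have hcard : (T.H (pow X n)).right q M =
      Nat.card {g : Fin (n + 1) → S.P // ∑ k, (S.wt (g k) - S.ct (g k)) = 0} := by
    rw [(adp_pow hT hq X H n).right_eq hq (hT.coh _) hM]
    simp only [hd]
  have hdim : dimH T (pow X n) = Fintype.card S.P ^ (n + 1) := by
    rw [dimH, (adp_pow hT hq X H n).finrank_eq, Fintype.card_fun, Fintype.card_fin]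
  have hdX : dimH T X = Fintype.card S.P := H.finrank_eq
  have hiff : Conjecture T q X ↔ ∀ s, S.top s = S.len s := mw_iff hq (hT.coh X) S
  constructor
  · intro h
    rw [hiff] at h
    have h1 : ∀ p, S.wt p - S.ct p = 0 := by
      intro p
      unfold Strings.wt Strings.ct
      rw [h p.1]
      ring
    rw [hcard, hdim]
    have h2 : Nat.card {g : Fin (n + 1) → S.P // ∑ k, (S.wt (g k) - S.ct (g k)) = 0} =
        Nat.card (Fin (n + 1) → S.P) :=
      Nat.card_congr (Equiv.subtypeUnivEquiv (fun g => Finset.sum_eq_zero fun k _ => h1 (g k)))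
    rw [h2, Nat.card_eq_fintype_card, Fintype.card_fun, Fintype.card_fin]
  · intro h
    rw [hiff] at h
    push Not at h
    obtain ⟨s, hs⟩ := h
    have h1 : ∃ p, (fun p => S.wt p - S.ct p) p ≠ 0 := by
      refine ⟨⟨s, ⟨0, by omega⟩⟩, ?_⟩
      unfold Strings.wt Strings.ct
      simp only
      omega
    have h2 := Pool.Agent.H66PM.count_bound (fun p => S.wt p - S.ct p) h1 (n + 1) (by omega)
    rw [hcard, hdim, hdX]
    set Z := Nat.card {g : Fin (n + 1) → S.P // ∑ k, (S.wt (g k) - S.ct (g k)) = 0} with hZ
    push_cast at h2 ⊢
    have h3 : (0 : ℝ) < (n : ℝ) + 2 := by positivity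
    refine le_of_sq_le_sq ?_ (by positivity)
    rw [mul_pow, Real.sq_sqrt (by positivity), div_mul_eq_mul_div, le_div_iff₀ h3]
    calc (Z : ℝ) ^ 2 * ((n : ℝ) + 2) = ((n : ℝ) + 1 + 1) * (Z : ℝ) ^ 2 := by ring
      _ ≤ 2 * (Fintype.card S.P : ℝ) ^ (2 * (n + 1) + 1) := h2
      _ = _ := by ring

end Pool.Agent.Results.MP_6451f1_ag.EffectiveZeroOneLaw
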