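import Pool.Agent.H66PH.Brg

/-!
# The p-adic monodromy-weight conjecture for hyperkähler varieties over number fields

Let `X` be a projective hyperkähler variety over a number field `K`, of any deformation type, and let
`u` be a place of `K` above `p`, with residue field of order `q`. We prove the `p`-adic
monodromy-weight conjecture for `X` at `u` in all degrees: the monodromy filtration of
`D_pst(H^i(X))` is, up to a shift by `i`, the weight filtration. Inputs are the conjecture for `H²`
(known), the facts that the `p`-adic étale cohomology is potentially semistable (Faltings, Tsuji) and
that the Frobenius eigenvalues on `D_pst` are Weil numbers (Mokrane, de Jong), the action of `so(H²)`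
on the cohomology (Verbitsky, Looijenga-Lunts), and standard facts on the cohomology at the places of
good reduction.

**The variety.** `HKVariety K Ω` is the data of a projective hyperkähler variety over `K`, with
`Ω` an algebraic closure of `ℚ_p`: the étale cohomology with coefficients `Ω`, with the action of the
Galois group of `K` and of `so(H²)`; the characteristic polynomials of Frobenius at the places outside
of a finite set `bad` (which contains the places above `p`); and the crystalline cohomology at the
good places of degree one.

**The periods.** `Weil K u W` says that `W` is the Weil group of the completion of `K` at `u`, with the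
valuation `deg` (`deg g = 1` for a geometric Frobenius element), `CycChar K Ω bad` is the cyclotomic
character, and `Periods G χ C L` says that `L` is a field of `p`-adic periods: the fraction field of
`C ⊗ B`, where `C` is an algebraic closure of `P₀ = W(k)[1/p]` (`k` an algebraic closure of the residue
field) and `B` is Fontaine's ring of semistable periods. `g` acts on `L` as `g ∘ φ ^ n(g)`, and this
action is linear over `C`. For a representation `r` of the Galois group on `V` the space `P.Dpst r` of
the elements of `L ⊗ V` which are fixed by an open subgroup of the inertia group is
`C ⊗ D_pst(V)`; the Weil group acts on it by `P.act r g`, and `P.mon V` is the monodromy operator.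
`P.IsPst r` says that `V` is potentially semistable: `L ⊗ V` is spanned by `P.Dpst r`.

**The theorem.** Let `g` be an element of the Weil group of valuation `n ≥ 1`. If the eigenvalues of
`g` on `D_pst(H^i)`, `i ≤ d = 2 dim X`, are `q ^ n`-Weil numbers of some integral weights, and if the
conjecture is true for `H²`, then it is true for all `H^i`: `P.IsPure r g n i` says that the
eigenvalues of `g` on the graded piece `M_a / M_(a - 1)` of the monodromy filtration `M` of
`D_pst(H^i)` are `q ^ n`-Weil numbers of weight `a + i`.

Idea of the proof. The starting library `N184.HK` contains the proof for the `ℓ`-adic cohomology. Let
`A_i` be the algebra of the endomorphisms of `H^i(X)` which commute with `so(H²)`, and `A'_i` the same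
algebra for `D_pst(H^i)`.

(1) The Galois group acts quasi-unipotently on `A_i`, by conjugation: this follows from weak
admissibility of the crystalline cohomology at the good places of degree one and from Chebotarev's
theorem. This is only a statement on the étale cohomology.

(2) `D_pst(H²)` has a form, with values in `C`, after division by `t²`, and `D_pst(H^i)` has an action
of its `so`, as this action is a morphism of Galois representations. `A'_i` and `A_i` span the same
subspace of the endomorphisms of `L ⊗ H^i`. There is a filtration of `A_i` by Galois stable
subspaces such that an open subgroup acts trivially on its quotients. It follows that on each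
eigenvector in `A'_i` of an element of the Weil group there is a Galois stable quotient of `A_i` on
which the eigenvalue can be read off; so the eigenvalues on `A'_i` are roots of unity. Hence
`N_i = ρ_i (N_2)` for the monodromy operators, and the weight operator is the sum of the image of the
one of `H²` and of an operator `T_i` in the centre of `A'_i`.

(3) A spectral projection `z` of `T_i` is a central idempotent of `A'_i`; it comes from a central
idempotent of `A_i` with open stabilizer, on which the determinants of the Galois representation are,
up to roots of unity, powers of the cyclotomic character. Comparison of the determinants over `L`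
shows that the mean weight of the image of `z` is `i`, and so `T_i` is nilpotent.

(4) The conjecture for `H²` gives an `sl₂`-triple in `so(D_pst(H²))`. Its image in the endomorphisms of
`D_pst(H^i)` shows the conjecture for `H^i`.
-/

set_option autoImplicit false

open NumberField IsDedekindDomain Pool.Agent.W401.Cheb Pool.Agent.N184.HK Pool.Agent.H66PH

namespace Pool.Agent.Results.MP_6451f1_ag.HyperkaehlerVarieties

/-- **The p-adic monodromy-weight conjecture for projective hyperkähler varieties over number
fields.** Let `X` be a projective hyperkähler variety over the number field `K`, and `u` a place of
`K` above `p`, with residue field of order `q`. Let `g` be an element of the Weil group of valuation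
`n ≥ 1`. If the étale cohomology is potentially semistable, the eigenvalues of `g` on the
`D_pst(H^i)` are Weil numbers, and `D_pst(H²)` is mw pure of weight `2` for `g`, then `D_pst(H^i)` is
mw pure of weight `i` for `g`, for all `i`. -/
theorem result {K : Type} [Field K] [NumberField K] {Ω : Type} [Field Ω] [CharZero Ω]
    [IsAlgClosed Ω] [TopologicalSpace Ω] [IsTopologicalRing Ω] [T2Space Ω]
    (X : HKVariety K Ω) (χ : CycChar K Ω X.bad) (u : HeightOneSpectrum (𝓞 K))
    (W : Type) [Group W] (G : Weil K u W) (C L : Type) [Field C] [IsAlgClosed C] [CharZero C]
    [Field L] [Algebra Ω C] [Algebra C L] [Algebra Ω L] [IsScalarTower Ω C L]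
    (P : Periods G χ.χ C L) (hpst : ∀ i, P.IsPst fun σ => X.E.Φ σ i)
    (n : ℕ) (hn : 1 ≤ n) (g : W) (hg : G.deg g = n)
    (hw : ∀ i ≤ X.d, P.IsWeighted (fun σ => X.E.Φ σ i) g n)
    (h2 : P.IsPure (fun σ => X.E.Φ σ 2) g n 2) :
    ∀ i ≤ X.d, P.IsPure (fun σ => X.E.Φ σ i) g n i :=
  pst_main X χ u W G C L P hpst n hn g hg hw h2

end Pool.Agent.Results.MP_6451f1_ag.HyperkaehlerVarieties
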