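import Pool.Agent.Y163.MW.Asm
import Pool.Agent.Y954.MW.B1

/-!
# MP_6451f1_ag: the dimension of the kernel of `N` on the powers of a variety

Let `K` be a `p`-adic field, `X` a smooth proper variety over `K`. The dimension `inv(Y)` of the
kernel of the monodromy operator `N` on the cohomology `⨁ H^m_{pst,p}(Y)` (that is, of the
potentially crystalline part) is compared with the dimension `pred(Y)` predicted by the
`p`-adic monodromy-weight conjecture and the weights of the Frobenius eigenvalues. The ratio
`inv(X^N) / pred(X^N)` converges to the square root of the quotient of two second moments, and the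
conjecture holds for `X` (in all degrees) if and only if the limit is one, and if and only if
`inv = pred` for `X × X`.
-/

set_option autoImplicit false

open Module Filter Topology

universe u v w

namespace Pool.Agent.Results.MP_6451f1_ag.IndexLaw

open Pool.Agent.H914 Pool.Agent.Y143 Pool.Agent.Y163.MW Pool.Agent.Y163.MW.Coh

/-- The conjecture for `X` in all degrees: for all `m` and `s` the eigenvalues of `F` on the graded
piece `M_s / M_(s - 1)` of the monodromy filtration of `H^m(X)` are `q`-Weil numbers of weight
`m + s`. -/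
def Conjecture {K : Type u} [Field K] {Ω : Type w} [Field Ω] [CharZero Ω]
    (T : Theory.{u, v, w} K Ω) (q : ℕ) (X : SmVar.{u} K) : Prop :=
  ∀ m, (T.H X).MWPure q m

/-- The square root of the quotient of `∑ (w - m)²`, the sum over the eigenvalues of `F` on the
`H^m(X)` (of weight `w`), by `∑ 2 k rank (N ^ k)`. -/
noncomputable def index {K : Type u} [Field K] {Ω : Type w} [Field Ω] [CharZero Ω]
    (T : Theory.{u, v, w} K Ω) (q : ℕ) (X : SmVar.{u} K) : ℝ :=
  √(((T.H X).totWeightMoment q : ℝ) / ((T.H X).totRankMoment : ℝ))

/-- **Index law.** Let `T` be the `p`-adic cohomology `⨁ H^m_{pst,p}` of the smooth proper varieties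
over `K` (with coefficients extended to the algebraically closed field `Ω`), `X` a smooth proper
variety over `K`.

* `pred(X) ≤ inv(X)`.
* `inv(X × X) = pred(X × X)` if and only if the conjecture holds for `X` in all degrees.
* If `N ≠ 0` then `inv(X^(n + 1)) / pred(X^(n + 1))` converges to the index of `X`, which is at least
  one, and equal to one if and only if the conjecture holds for `X` in all degrees. -/
theorem result {K : Type u} [Field K] {Ω : Type w} [Field Ω] [CharZero Ω] [IsAlgClosed Ω]
    (T : Theory.{u, v, w} K Ω) {q : ℕ} (hq : 1 < q) (hT : T.IsLocal q) (X : SmVar.{u} K) :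
    (T.H X).pred q ≤ (T.H X).inv ∧
      ((T.H (X.prod X)).inv = (T.H (X.prod X)).pred q ↔ Conjecture T q X) ∧
      ((T.H X).N ≠ 0 →
        Tendsto (fun n : ℕ => ((T.H (pow X n)).inv : ℝ) / ((T.H (pow X n)).pred q : ℝ)) atTop
          (𝓝 (index T q X)) ∧
        1 ≤ index T q X ∧ (index T q X = 1 ↔ Conjecture T q X)) := by
  have hB1 : StB1.{w, v} := Pool.Agent.Y954.MW.stB1 Pool.Agent.Y141.MW.stL
  refine ⟨pred_le_inv hB1 hq (hT.coh X), square_iff hB1 hT hq X, fun hN => ?_⟩
  obtain ⟨h1, h2⟩ := moment_tot hq (hT.coh X)
  have h3 := totRank_pos hq (hT.coh X) hN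
  have h3' : (0 : ℝ) < ((T.H X).totRankMoment : ℝ) := by exact_mod_cast h3
  have h1' : ((T.H X).totRankMoment : ℝ) ≤ ((T.H X).totWeightMoment q : ℝ) := by exact_mod_cast h1
  refine ⟨index_law hB1 hT hq X hN, ?_, ?_⟩
  · rw [index, Real.one_le_sqrt, one_le_div h3']
    exact h1'
  · rw [index, Real.sqrt_eq_one, div_eq_one_iff_eq h3'.ne']
    constructor
    · intro h
      exact h2.1 (by exact_mod_cast h.symm)
    · intro h
      have := h2.2 h
      rw [this]

end Pool.Agent.Results.MP_6451f1_ag.IndexLaw
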