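import Pool.Agent.H66PP.Main

/-!
# The pure part of the cohomology of a variety over a p-adic field

Let `K` be a `p`-adic field. For a smooth proper `K`-scheme `X` let `Pᵐ(X) ⊆ Hᵐ_{pst,p}(X)` be the sum of
the realizations of all submotives of `hᵐ(X)` for which the `p`-adic monodromy-weight conjecture is
true. We show that the conjecture is true for `Pᵐ(X)` and for all its submotives, that the `Pᵐ(X)`
are stable under cup products and under all correspondences, and that the conjecture for `Hᵐ(X)` is
equivalent to the one for the quotient `Hᵐ(X) / S` by any pure submotive `S`.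

As the conjecture is known in the degrees `≤ 2`, it follows that it is true for the part of coniveau
`c` of `Hᵐ(X)` if `m ≤ 2 c + 2`; that the conjecture for `Hᵐ(X)` is equivalent to the one for
`Hᵐ(X) / NᶜHᵐ(X)`; and that its truth for `H³` and `H⁴` is a stable birational invariant, and is
inherited by all varieties `X` dominated by `X'`.

Motives are meant for André's motivated cycles: submotives are polarized, and the operators `F` and
`N` respect them. `Ω` is an algebraically closed field of characteristic zero which contains `P₀`,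
`T.H X` is the cohomology `⨁ Hᵐ_{pst,p}(X) ⊗ Ω` with a geometric Frobenius element `F` of the Weil
group, the monodromy operator `N`, the realizations `Sub m` of the submotives of `hᵐ(X)`, the
polarization `Q m` of `Hᵐ` and the cup product; `T.corr Y X r` is the set of the maps
`Hⁱ(Y) → Hⁱ⁺²ʳ(X)` given by correspondences of degree `r`; `T.IsMotivic q` collects the known
properties. See the file `Pool/Agent/H66PP/Defs.lean`.

Proof. A submotive `S` of weight `m` with its polarization is pure as soon as `N ^ a` maps its part of
weight `m + a` onto its part of weight `m - a`: the pairing shows the injectivity. This property of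
surjectivity is inherited by sums and images, and by products because a pure `S` is a representation
of `sl(2)`.
-/

set_option autoImplicit false

universe u v w

namespace Pool.Agent.Results.MP_6451f1_ag.PurePart

open Pool.Agent.H66PP Pool.Agent.Y143 Pool.Agent.Y163.MW

section

variable {K : Type u} [Field K] {Ω : Type w} [Field Ω] [CharZero Ω]

/-- The pure part of `H^m` is a submotive, a submotive of `H^m` is mw pure of weight `m` if and only
if it is contained in the pure part, and the conjecture is true for `H^m` if and only if `H^m` is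
equal to its pure part. -/
def IsLargest (A : MCoh.{v, w} Ω) (q m : ℕ) : Prop :=
  A.pure q m ∈ A.Sub m ∧ (∀ S ∈ A.Sub m, PureOn A.R q m S ↔ S ≤ A.pure q m) ∧
    (A.R.MWPure q m ↔ A.pure q m = A.R.gr m)

/-- The cup product of two elements of the pure parts of `H^i` and `H^j` is in the pure part of
`H^(i + j)`. -/
def CupStable (A : MCoh.{v, w} Ω) (q i j : ℕ) : Prop :=
  ∀ x ∈ A.pure q i, ∀ y ∈ A.pure q j, mulv A.cup x y ∈ A.pure q (i + j)

/-- The correspondences of degree `r` from `Y` to `X` map the pure part of `H^i(Y)` to the pure part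
of `H^j(X)`, `j = i + 2 r`. -/
def CorrStable (T : MTheory.{u, v, w} K Ω) (q : ℕ) (Y X : SmProper.{u} K) (r : ℤ) : Prop :=
  ∀ φ ∈ T.corr Y X r, ∀ i j : ℕ, (j : ℤ) = i + 2 * r →
    ∀ x ∈ (T.H Y).pure q i, φ x ∈ (T.H X).pure q j

/-- `N^c H^(i + 2 c)(X)` is mw pure of weight `i + 2 c`; the conjecture is true for
`H^(i + 2 c)(X)` if and only if the orthogonal complement of `N^c H^(i + 2 c)(X)` (which is
isomorphic to the quotient `H^(i + 2 c)(X) / N^c`) is mw pure; and it is true for
`H^(i + 2 c)(X)` if it is true for `H^(i + 2 c)(X')`, where `X'` dominates `X` modulo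
`N^c H^(i + 2 c)(X)`. -/
def ConiveauPure (T : MTheory.{u, v, w} K Ω) (q : ℕ) (X : SmProper.{u} K) (c i : ℕ) : Prop :=
  PureOn (T.H X).R q (i + 2 * c) (T.coniveau X c i) ∧
    ((T.H X).R.MWPure q (i + 2 * c) ↔ PureOn (T.H X).R q (i + 2 * c)
      (ortho ((T.H X).R.gr (i + 2 * c)) (T.coniveau X c i) ((T.H X).Q (i + 2 * c)))) ∧
    ∀ X', T.Dominated X' X c i → (T.H X').R.MWPure q (i + 2 * c) →
      (T.H X).R.MWPure q (i + 2 * c)

end

/-- **The pure part of the cohomology.** `(T.H X).pure q m` is the sum of the mw pure submotives of
`H^m(X)`, `T.coniveau X c i` is the part of coniveau `c` of `H^(i + 2 c)(X)`.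

1. The pure part of `H^m(X)` is the largest mw pure submotive.
2. The pure parts are stable under cup products.
3. The pure parts are stable under correspondences.
4. Hence, if the conjecture is true in degree `i` (this is known for `i ≤ 2`) then
`N^c H^(i + 2 c)(X)` is mw pure, for all `X` and `c`; the conjecture for `H^(i + 2 c)(X)` is
equivalent to the one for `H^(i + 2 c)(X) / N^c`, and it is true if it is true for some `X'` which
dominates `X` modulo `N^c H^(i + 2 c)(X)`. -/
theorem result {K : Type u} [Field K] {Ω : Type w} [Field Ω] [CharZero Ω] [IsAlgClosed Ω]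
    (T : MTheory.{u, v, w} K Ω) {q : ℕ} (hq : 1 < q) (hT : T.IsMotivic q) :
    (∀ X m, IsLargest (T.H X) q m) ∧ (∀ X i j, CupStable (T.H X) q i j) ∧
    (∀ Y X r, CorrStable T q Y X r) ∧
    (∀ i, (∀ Y, (T.H Y).R.MWPure q i) → ∀ X c, ConiveauPure T q X c i) := by
  refine ⟨fun X m => ⟨pure_sub (hT.coh X) m, fun S hS => pureOn_iff_le hq (hT.coh X) hS,
    mwPure_iff_pure hq (hT.coh X) m⟩, ?_, ?_, ?_⟩
  · intro X i j x hx y hy
    exact pure_cup hq (hT.coh X) i j (Submodule.apply_mem_map₂ _ hx hy)
  · intro Y X r φ hφ i j hij x hx
    exact pure_corr hq hT hφ hij (Submodule.mem_map_of_mem hx)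
  · intro i h X c
    have h1 := coniveau_sub hT X c i
    have h2 := (pureOn_iff_le hq (hT.coh X) h1).2 (coniveau_le hq hT X c i h)
    exact ⟨h2, mwPure_iff_orth hq (hT.coh X) h1 h2, fun X' hd h' => mwPure_of_dominated hq hT h hd h'⟩

end Pool.Agent.Results.MP_6451f1_ag.PurePart
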